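import Pool.Agent.Y262.EX.Stm

/-!
# Project EX: finitely many elements of bounded norm modulo the group
-/

set_option autoImplicit false

open Set

namespace Pool.Agent.Y426.EX

open Pool.Agent.Y262.EX

theorem qm_mul (a b c d a' b' c' d' : ℝ) :
    qm a b c d * qm a' b' c' d' =
      qm (a * a' + 12 * (b * b') - 4 * (c * c') + 12 * (d * d'))
        (a * b' + b * a' + 2 * (c * d') - 2 * (d * c'))
        (a * c' + c * a' + 6 * (b * d' - d * b'))
        (a * d' + d * a' + 2 * (b * c' - c * b')) := by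
  have h3 : Real.sqrt 3 * Real.sqrt 3 = 3 := Real.mul_self_sqrt (by norm_num)
  ext i j
  fin_cases i <;> fin_cases j <;> simp [qm, Matrix.mul_apply, Fin.sum_univ_two]
  · linear_combination (4 * b * b' + 4 * d * d') * h3
  · linear_combination (4 * b * d' - 4 * d * b') * h3
  · linear_combination (4 * d * b' - 4 * b * d') * h3
  · linear_combination (4 * b * b' + 4 * d * d') * h3

theorem qm_det (a b c d : ℝ) : (qm a b c d).det = a ^ 2 - 12 * b ^ 2 + 4 * c ^ 2 - 12 * d ^ 2 := by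
  have h3 : Real.sqrt 3 * Real.sqrt 3 = 3 := Real.mul_self_sqrt (by norm_num)
  rw [Matrix.det_fin_two]
  simp [qm]
  linear_combination (-4 * b ^ 2 - 4 * d ^ 2) * h3

/-- the norm -/
def Q (x : ℤ × ℤ × ℤ × ℤ) : ℤ := x.1 ^ 2 - 12 * x.2.1 ^ 2 + 4 * x.2.2.1 ^ 2 - 12 * x.2.2.2 ^ 2

/-- norm and residues -/
def key (x : ℤ × ℤ × ℤ × ℤ) : ℤ × ℤ × ℤ × ℤ × ℤ :=
  (Q x, x.1 % Q x, x.2.1 % Q x, x.2.2.1 % Q x, x.2.2.2 % Q x)

theorem emod_mem {N : ℕ} {a n : ℤ} (hn : n ≠ 0) (hN : |n| ≤ N) : a % n ∈ Icc (0 : ℤ) N := by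
  refine ⟨Int.emod_nonneg _ hn, ?_⟩
  have := Int.emod_lt_abs a hn
  omega

theorem exists_group (x y : ℤ × ℤ × ℤ × ℤ) (hx : Q x ≠ 0) (h : key x = key y) :
    ∃ γ : Gq, qm y.1 y.2.1 y.2.2.1 y.2.2.2 =
      qm x.1 x.2.1 x.2.2.1 x.2.2.2 * qm γ.a γ.b γ.c γ.d := by
  obtain ⟨a, b, c, d⟩ := x
  obtain ⟨a', b', c', d'⟩ := y
  simp only [key, Prod.mk.injEq] at h
  obtain ⟨hQ, h1, h2, h3, h4⟩ := h
  rw [← hQ] at h1 h2 h3 h4
  set n := Q (a, b, c, d) with hn
  obtain ⟨α, hα⟩ := Int.modEq_iff_dvd.1 (show a ≡ a' [ZMOD n] from h1)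
  obtain ⟨β, hβ⟩ := Int.modEq_iff_dvd.1 (show b ≡ b' [ZMOD n] from h2)
  obtain ⟨γ, hγ⟩ := Int.modEq_iff_dvd.1 (show c ≡ c' [ZMOD n] from h3)
  obtain ⟨δ, hδ⟩ := Int.modEq_iff_dvd.1 (show d ≡ d' [ZMOD n] from h4)
  have ha' : a' = a + n * α := by linarith
  have hb' : b' = b + n * β := by linarith
  have hc' : c' = c + n * γ := by linarith
  have hd' : d' = d + n * δ := by linarith
  have hn1 : n = a ^ 2 - 12 * b ^ 2 + 4 * c ^ 2 - 12 * d ^ 2 := rfl
  have hn2 : n = a' ^ 2 - 12 * b' ^ 2 + 4 * c' ^ 2 - 12 * d' ^ 2 := by rw [hQ]; rfl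
  have hnn : n * n ≠ 0 := mul_ne_zero hx hx
  -- the components
  have key1 : n * (1 + a * α - 12 * b * β + 4 * c * γ - 12 * d * δ) =
      a * a' - 12 * b * b' + 4 * c * c' - 12 * d * d' := by
    rw [ha', hb', hc', hd']
    linear_combination hn1
  have key2 : n * (a * β - b * α - 2 * c * δ + 2 * d * γ) =
      a * b' - b * a' - 2 * c * d' + 2 * d * c' := by
    rw [ha', hb', hc', hd']; ring
  have key3 : n * (a * γ - c * α + 6 * (d * β - b * δ)) =
      a * c' - c * a' + 6 * (d * b' - b * d') := by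
    rw [ha', hb', hc', hd']; ring
  have key4 : n * (a * δ - d * α + 2 * (c * β - b * γ)) =
      a * d' - d * a' + 2 * (c * b' - b * c') := by
    rw [ha', hb', hc', hd']; ring
  generalize hp : 1 + a * α - 12 * b * β + 4 * c * γ - 12 * d * δ = p at key1
  generalize hq : a * β - b * α - 2 * c * δ + 2 * d * γ = q at key2
  generalize hr : a * γ - c * α + 6 * (d * β - b * δ) = r at key3
  generalize hs : a * δ - d * α + 2 * (c * β - b * γ) = s at key4
  have hnorm : p ^ 2 - 12 * q ^ 2 + 4 * r ^ 2 - 12 * s ^ 2 = 1 := by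
    apply mul_left_cancel₀ hnn
    have e : n * n * (p ^ 2 - 12 * q ^ 2 + 4 * r ^ 2 - 12 * s ^ 2) =
        (n * p) ^ 2 - 12 * (n * q) ^ 2 + 4 * (n * r) ^ 2 - 12 * (n * s) ^ 2 := by ring
    rw [e, key1, key2, key3, key4]
    have e2 : n * n = (a ^ 2 - 12 * b ^ 2 + 4 * c ^ 2 - 12 * d ^ 2) *
        (a' ^ 2 - 12 * b' ^ 2 + 4 * c' ^ 2 - 12 * d' ^ 2) := by rw [← hn1, ← hn2]
    rw [e2]
    ring
  have E1 : a * p + 12 * (b * q) - 4 * (c * r) + 12 * (d * s) = a' := by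
    apply mul_left_cancel₀ hx
    linear_combination a * key1 + 12 * b * key2 - 4 * c * key3 + 12 * d * key4 - a' * hn1
  have E2 : a * q + b * p + 2 * (c * s) - 2 * (d * r) = b' := by
    apply mul_left_cancel₀ hx
    linear_combination a * key2 + b * key1 + 2 * c * key4 - 2 * d * key3 - b' * hn1
  have E3 : a * r + c * p + 6 * (b * s - d * q) = c' := by
    apply mul_left_cancel₀ hx
    linear_combination a * key3 + c * key1 + 6 * b * key4 - 6 * d * key2 - c' * hn1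
  have E4 : a * s + d * p + 2 * (b * r - c * q) = d' := by
    apply mul_left_cancel₀ hx
    linear_combination a * key4 + d * key1 + 2 * b * key3 - 2 * c * key2 - d' * hn1
  refine ⟨⟨p, q, r, s, hnorm⟩, ?_⟩
  simp only
  rw [qm_mul]
  congr 1
  · exact_mod_cast E1.symm
  · exact_mod_cast E2.symm
  · exact_mod_cast E3.symm
  · exact_mod_cast E4.symm

/-- finitely many elements of bounded norm modulo the group -/
theorem finT : StFin := by
  intro N
  classical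
  set X : Set (ℤ × ℤ × ℤ × ℤ) := {x | Q x ≠ 0 ∧ |Q x| ≤ (N : ℤ)} with hX
  have hfin : (key '' X).Finite := by
    apply Set.Finite.subset (s := (Icc (-(N : ℤ)) N) ×ˢ (Icc (0 : ℤ) N) ×ˢ (Icc (0 : ℤ) N) ×ˢ
      (Icc (0 : ℤ) N) ×ˢ (Icc (0 : ℤ) N))
    · exact (Set.finite_Icc _ _).prod ((Set.finite_Icc _ _).prod ((Set.finite_Icc _ _).prod
        ((Set.finite_Icc _ _).prod (Set.finite_Icc _ _))))
    · rintro _ ⟨x, ⟨h1, h2⟩, rfl⟩
      exact ⟨abs_le.1 h2, emod_mem h1 h2, emod_mem h1 h2, emod_mem h1 h2, emod_mem h1 h2⟩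
  have hne : ∀ x : ℤ × ℤ × ℤ × ℤ, x ∈ X → (Function.invFunOn key X (key x)) ∈ X ∧
      key (Function.invFunOn key X (key x)) = key x := fun x hx =>
    ⟨Function.invFunOn_mem ⟨x, hx, rfl⟩, Function.invFunOn_eq ⟨x, hx, rfl⟩⟩
  refine ⟨(hfin.image (Function.invFunOn key X)).toFinset, ?_, ?_⟩
  · intro x hx
    rw [Set.Finite.mem_toFinset] at hx
    obtain ⟨_, ⟨y, hy, rfl⟩, rfl⟩ := hx
    have h1 := (hne y hy).1.1
    rw [qm_det]
    intro h
    apply h1
    unfold Q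
    exact_mod_cast h
  · intro a b c d h0 hN
    have hy : (a, b, c, d) ∈ X := ⟨h0, hN⟩
    obtain ⟨h1, h2⟩ := hne _ hy
    refine ⟨Function.invFunOn key X (key (a, b, c, d)), ?_, ?_⟩
    · rw [Set.Finite.mem_toFinset]
      exact ⟨_, ⟨_, hy, rfl⟩, rfl⟩
    · exact exists_group _ _ h1.1 h2

end Pool.Agent.Y426.EX
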