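import Pool.Agent.Y262.EX.Stm

/-!
# Project EX: Minkowski's theorem for the order
-/

set_option autoImplicit false

open Set MeasureTheory

namespace Pool.Agent.Y426.EX

open Pool.Agent.Y262.EX

/-- the matrix of the linear map `x ↦ qm x * g` -/
noncomputable def M (g : Matrix (Fin 2) (Fin 2) ℝ) : Matrix (Fin 4) (Fin 4) ℝ :=
  !![g 0 0, 2 * Real.sqrt 3 * g 0 0, 2 * g 1 0, 2 * Real.sqrt 3 * g 1 0;
     g 0 1, 2 * Real.sqrt 3 * g 0 1, 2 * g 1 1, 2 * Real.sqrt 3 * g 1 1;
     g 1 0, -(2 * Real.sqrt 3 * g 1 0), -(2 * g 0 0), 2 * Real.sqrt 3 * g 0 0;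
     g 1 1, -(2 * Real.sqrt 3 * g 1 1), -(2 * g 0 1), 2 * Real.sqrt 3 * g 0 1]

theorem det_M (g : Matrix (Fin 2) (Fin 2) ℝ) (hg : g.det = 1) : |(M g).det| = 96 := by
  have h3 : Real.sqrt 3 * Real.sqrt 3 = 3 := Real.mul_self_sqrt (by norm_num)
  rw [Matrix.det_fin_two] at hg
  have h : (M g).det = -96 * (g 0 0 * g 1 1 - g 0 1 * g 1 0) ^ 2 ∨
      (M g).det = 96 * (g 0 0 * g 1 1 - g 0 1 * g 1 0) ^ 2 := by
    first
      | right
        simp [M, Matrix.det_succ_row_zero, Fin.sum_univ_succ, Fin.succAbove, Matrix.submatrix]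
        linear_combination (32 * (g 0 0 * g 1 1 - g 0 1 * g 1 0) ^ 2) * h3
      | left
        simp [M, Matrix.det_succ_row_zero, Fin.sum_univ_succ, Fin.succAbove, Matrix.submatrix]
        linear_combination (-32 * (g 0 0 * g 1 1 - g 0 1 * g 1 0) ^ 2) * h3
  rcases h with h | h <;> rw [h, hg] <;> norm_num

theorem M_mulVec (g : Matrix (Fin 2) (Fin 2) ℝ) (x : Fin 4 → ℝ) :
    Matrix.toLin' (M g) x = ![(qm (x 0) (x 1) (x 2) (x 3) * g) 0 0, (qm (x 0) (x 1) (x 2) (x 3) * g) 0 1,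
      (qm (x 0) (x 1) (x 2) (x 3) * g) 1 0, (qm (x 0) (x 1) (x 2) (x 3) * g) 1 1] := by
  rw [Matrix.toLin'_apply]
  ext i
  fin_cases i <;>
    simp [M, qm, Matrix.mulVec, dotProduct, Fin.sum_univ_succ, Matrix.mul_apply] <;> ring

/-- Minkowski's theorem for the order -/
theorem mink : StMink := by
  refine ⟨4, fun g hg => ?_⟩
  set b : Module.Basis (Fin 4) ℝ (Fin 4 → ℝ) := Pi.basisFun ℝ (Fin 4) with hb
  set L : AddSubgroup (Fin 4 → ℝ) := (Submodule.span ℤ (Set.range b)).toAddSubgroup with hL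
  have hfund := ZSpan.isAddFundamentalDomain b volume
  have hvol : volume (ZSpan.fundamentalDomain b) = 1 := by
    rw [ZSpan.volume_fundamentalDomain]
    have : (Matrix.of b : Matrix (Fin 4) (Fin 4) ℝ) = 1 := by
      ext i j
      simp [hb, Matrix.one_apply, Pi.single_apply, eq_comm]
    rw [this]
    simp
  set s : Set (Fin 4 → ℝ) := (Matrix.toLin' (M g)) ⁻¹' Metric.closedBall 0 4 with hs
  have hdet : LinearMap.det (Matrix.toLin' (M g)) = (M g).det := LinearMap.det_toLin' _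
  have hd := det_M g hg
  have hne : LinearMap.det (Matrix.toLin' (M g)) ≠ 0 := by
    rw [hdet]
    intro h
    rw [h] at hd
    norm_num at hd
  have hsvol : volume s = ENNReal.ofReal (8 ^ 4 / 96) := by
    rw [hs, MeasureTheory.Measure.addHaar_preimage_linearMap volume hne, hdet, abs_inv, hd,
      Real.volume_pi_closedBall _ (by norm_num), ← ENNReal.ofReal_mul (by norm_num)]
    congr 1
    norm_num
  have hconv : Convex ℝ s := (convex_closedBall _ _).linear_preimage _
  have hsymm : ∀ x ∈ s, -x ∈ s := by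
    intro x hx
    rw [hs, Set.mem_preimage, mem_closedBall_zero_iff] at hx ⊢
    rw [map_neg, norm_neg]
    exact hx
  have hlt : volume (ZSpan.fundamentalDomain b) * 2 ^ (Module.finrank ℝ (Fin 4 → ℝ)) < volume s := by
    rw [hvol, hsvol, one_mul, Module.finrank_fin_fun]
    rw [show (2 : ENNReal) ^ 4 = ENNReal.ofReal 16 by
      rw [show (16 : ℝ) = 2 ^ 4 by norm_num, ENNReal.ofReal_pow (by norm_num)]; norm_num]
    exact (ENNReal.ofReal_lt_ofReal_iff (by norm_num)).2 (by norm_num)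
  have : Countable L := by
    change Countable (Submodule.span ℤ (Set.range b))
    infer_instance
  obtain ⟨x, hx0, hxs⟩ := exists_ne_zero_mem_lattice_of_measure_mul_two_pow_lt_measure
    (L := L) hfund hsymm hconv hlt
  have hxL : (x : Fin 4 → ℝ) ∈ Submodule.span ℤ (Set.range b) := x.2
  have hint : ∀ i, ∃ n : ℤ, (n : ℝ) = (x : Fin 4 → ℝ) i := by
    intro i
    have h := (b.mem_span_iff_repr_mem ℤ (x : Fin 4 → ℝ)).1 hxL i
    obtain ⟨n, hn⟩ := h
    exact ⟨n, by simpa [hb] using hn⟩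
  choose f hf using hint
  refine ⟨f 0, f 1, f 2, f 3, ?_, ?_⟩
  · rintro ⟨h0, h1, h2, h3⟩
    apply hx0
    ext i
    rw [← hf i]
    fin_cases i
    · simp [h0]
    · simp [h1]
    · simp [h2]
    · simp [h3]
  · rw [hs, Set.mem_preimage, mem_closedBall_zero_iff, pi_norm_le_iff_of_nonneg (by norm_num)] at hxs
    intro i j
    have h := M_mulVec g x
    have e0 := hxs 0
    have e1 := hxs 1
    have e2 := hxs 2
    have e3 := hxs 3
    rw [h] at e0 e1 e2 e3
    rw [hf 0, hf 1, hf 2, hf 3]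
    fin_cases i <;> fin_cases j
    · simpa [Real.norm_eq_abs] using e0
    · simpa [Real.norm_eq_abs] using e1
    · simpa [Real.norm_eq_abs] using e2
    · simpa [Real.norm_eq_abs] using e3

end Pool.Agent.Y426.EX
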